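import Pool.Agent.H30.AV.Targets2
import Pool.Agent.H30.VGH.Targets2

/-!
# At most `r` of the general hyperplanes contain a given point of the projective closure
-/

set_option autoImplicit false

namespace Pool.Agent.H6.AV

open MvPolynomial SC Pool.Agent.H27.LV Pool.Agent.H30.AV

theorem dehom {k : Type} [Field k] {t N : ℕ} (G : MvPolynomial (Fin (t + 1)) k)
    (hG : G.IsHomogeneous N)
    (h : aeval (Fin.cons 1 X : Fin (t + 1) → MvPolynomial (Fin t) k) G = 0) : G = 0 := by
  classical
  have h1 : aeval (Fin.cons 1 X : Fin (t + 1) → MvPolynomial (Fin t) k) G =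
      ∑ m ∈ G.support, monomial (Finsupp.tail m) (coeff m G) := by
    rw [aeval_def, eval₂_eq']
    refine Finset.sum_congr rfl fun m _ => ?_
    rw [Fin.prod_univ_succ, monomial_eq, Finsupp.prod_fintype]
    · simp [algebraMap_eq, Finsupp.tail_apply]
    · simp
  ext m0
  rw [coeff_zero]
  by_contra hm0
  rw [h1] at h
  have hd : ∀ m : Fin (t + 1) →₀ ℕ, coeff m G ≠ 0 → m 0 + ∑ i : Fin t, Finsupp.tail m i = N := by
    intro m hm
    have h0 : Finsupp.weight 1 m = N := hG hm
    have h1 : m.degree = N := by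
      rw [← h0, Finsupp.degree_eq_weight_one]
      rfl
    rw [← h1, Finsupp.degree_eq_sum, Fin.sum_univ_succ]
    rfl
  have h2 := congrArg (coeff (Finsupp.tail m0)) h
  rw [coeff_sum, coeff_zero, Finset.sum_eq_single m0] at h2
  · rw [coeff_monomial, if_pos rfl] at h2
    exact hm0 h2
  · intro m hm hne
    rw [coeff_monomial, if_neg]
    intro hcon
    apply hne
    have e1 := hd m (mem_support_iff.1 hm)
    have e2 := hd m0 hm0
    rw [hcon] at e1
    ext i
    refine Fin.cases ?_ (fun j => ?_) i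
    · omega
    · have := DFunLike.congr_fun hcon j
      rwa [Finsupp.tail_apply, Finsupp.tail_apply] at this
  · intro h3
    exact absurd (mem_support_iff.2 hm0) h3

theorem aeval_hom {k R : Type} [Field k] [CommRing R] [Algebra k R] {σ : Type}
    (φ : MvPolynomial σ k) (N : ℕ) (h : φ.IsHomogeneous N) (t : R) (z : σ → R) :
    aeval (fun i => t * z i) φ = t ^ N * aeval z φ := by
  rw [φ.as_sum, map_sum, map_sum, Finset.mul_sum]
  refine Finset.sum_congr rfl fun m hm => ?_
  rw [aeval_monomial, aeval_monomial]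
  have h1 : m.degree = N := by
    have h0 : Finsupp.weight 1 m = N := h (mem_support_iff.1 hm)
    rw [← h0, Finsupp.degree_eq_weight_one]
    rfl
  rw [Finsupp.prod, Finsupp.prod]
  simp only [mul_pow]
  rw [Finset.prod_mul_distrib, Finset.prod_pow_eq_pow_sum]
  have h2 : ∑ i ∈ m.support, m i = N := h1
  rw [h2]
  ring

theorem rank_contra (k Ω : Type) [Field k] [Field Ω] [Algebra k Ω] (n r q : ℕ) (j0 : Fin (n + 1))
    (p : Fin (n + 1) → Ω) (hp : p j0 = 1)
    (hs : ∀ s : Fin (r + 1) → Fin (n + 1), ¬ AlgebraicIndependent k fun i => p (s i))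
    (α : Fin q × Fin (n + 1) → Ω) (hα : AlgebraicIndependent k α) (I : Finset (Fin q))
    (hI : I.card = r + 1) (hrel : ∀ i ∈ I, ∑ j, α (i, j) * p j = 0) : False := by
  classical
  set M := AlgebraicIndependent.matroid k Ω with hM
  obtain ⟨B, hB⟩ := M.exists_isBasis (Set.range p)
  have hr : B.encard ≤ r := by
    by_contra hr
    have h1 : ((r + 1 : ℕ) : ℕ∞) ≤ B.encard := by
      push Not at hr
      have := Order.add_one_le_of_lt hr
      exact_mod_cast this
    obtain ⟨B', hB', hc⟩ := Set.exists_subset_encard_eq h1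
    have hfin : B'.Finite := Set.finite_of_encard_eq_coe hc
    have hcard : Nat.card B' = r + 1 := by
      rw [Nat.card_coe_set_eq, Set.ncard, hc]
      rfl
    have : Finite B' := hfin
    let e : Fin (r + 1) ≃ B' := (Finite.equivFinOfCardEq hcard).symm
    have h2 : ∀ i, ∃ j, p j = (e i : Ω) := fun i => hB.subset (hB' (e i).2)
    choose s hs' using h2
    apply hs s
    have h3 : M.Indep B' := hB.indep.subset hB'
    rw [hM, AlgebraicIndependent.matroid_indep_iff] at h3
    have h4 := AlgebraicIndependent.comp h3 e e.injective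
    have h5 : (fun i => p (s i)) = (fun i : B' => id (i : Ω)) ∘ e := by
      funext i
      simp [hs']
    rw [h5]
    exact h4
  let S : Finset (Fin q × Fin (n + 1)) := (I ×ˢ {j0})ᶜ
  let T : Set Ω := α '' (S : Set (Fin q × Fin (n + 1)))
  have hT : T.encard ≤ ((q * (n + 1) - (r + 1) : ℕ) : ℕ∞) := by
    refine (Set.encard_image_le _ _).trans ?_
    rw [Set.encard_coe_eq_coe_finsetCard, Finset.card_compl, Finset.card_product,
      Finset.card_singleton, hI, mul_one, Fintype.card_prod, Fintype.card_fin, Fintype.card_fin]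
  have hmem : ∀ x, x ∈ S → α x ∈ Algebra.adjoin k (T ∪ Set.range p) := fun x hx =>
    Algebra.subset_adjoin (Or.inl ⟨x, hx, rfl⟩)
  have hpmem : ∀ j, p j ∈ Algebra.adjoin k (T ∪ Set.range p) := fun j =>
    Algebra.subset_adjoin (Or.inr ⟨j, rfl⟩)
  have hall : ∀ x, α x ∈ Algebra.adjoin k (T ∪ Set.range p) := by
    rintro ⟨i, j⟩
    by_cases hx : (i, j) ∈ S
    · exact hmem _ hx
    · rw [Finset.notMem_compl, Finset.mem_product, Finset.mem_singleton] at hx
      obtain ⟨hi, hj⟩ := hx
      simp only at hi hj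
      subst hj
      have h1 := hrel i hi
      rw [← Finset.add_sum_erase _ _ (Finset.mem_univ j), hp, mul_one] at h1
      rw [eq_neg_of_add_eq_zero_left h1]
      refine neg_mem (sum_mem fun j' hj' => ?_)
      refine mul_mem (hmem _ ?_) (hpmem j')
      rw [Finset.mem_compl, Finset.mem_product, Finset.mem_singleton]
      rintro ⟨-, h2⟩
      exact (Finset.mem_erase.1 hj').1 h2
  have h1 : M.Indep (Set.range α) := by
    rw [hM, AlgebraicIndependent.matroid_indep_iff]
    exact (algebraicIndependent_subtype_range hα.injective).2 hα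
  have h2 : Set.range α ⊆ M.closure (T ∪ Set.range p) := by
    rintro _ ⟨i, rfl⟩
    rw [hM, AlgebraicIndependent.matroid_closure_eq]
    exact isAlgebraic_algebraMap (⟨α i, hall i⟩ : Algebra.adjoin k (T ∪ Set.range p))
  have h3 := M.eRk_mono h2
  rw [Matroid.eRk_closure_eq, h1.eRk_eq_encard] at h3
  have h4 := M.eRk_union_le_eRk_add_eRk T (Set.range p)
  rw [← hB.encard_eq_eRk] at h4
  have h5 : (Set.range α).encard = ((q * (n + 1) : ℕ) : ℕ∞) := by
    rw [← Set.image_univ, hα.injective.encard_image, Set.encard_univ, ENat.card_eq_coe_fintype_card,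
      Fintype.card_prod, Fintype.card_fin, Fintype.card_fin]
  rw [h5] at h3
  have h6 := h3.trans (h4.trans (add_le_add ((M.eRk_le_encard T).trans hT) hr))
  have h7 : q * (n + 1) ≤ (q * (n + 1) - (r + 1)) + r := by exact_mod_cast h6
  have h8 : I.card ≤ q := by
    simpa using Finset.card_le_univ I
  have h9 : q * 1 ≤ q * (n + 1) := Nat.mul_le_mul_left q (by omega)
  omega

theorem pf_GPH (hELI : Pool.Agent.H30.VGH.T_ELI) : T_GPH := by
  classical
  intro k _ n r q N G hG0 hGh
  let σ := Fin q × Fin (n + 1)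
  let A0 : Fin q → Fin (n + 1) → MvPolynomial (σ ⊕ (Fin (n + 1) ⊕ Unit)) k :=
    fun i j => X (Sum.inl (i, j))
  let P0 : Fin (n + 1) → MvPolynomial (σ ⊕ (Fin (n + 1) ⊕ Unit)) k :=
    fun j => X (Sum.inr (Sum.inl j))
  let W0 : MvPolynomial (σ ⊕ (Fin (n + 1) ⊕ Unit)) k := X (Sum.inr (Sum.inr ()))
  let J : Finset (Fin q) → Fin (n + 1) → Set (MvPolynomial (σ ⊕ (Fin (n + 1) ⊕ Unit)) k) :=
    fun I j0 => {f | (∃ s, f = aeval (fun i => P0 (s i)) (G s)) ∨
      (∃ i ∈ I, f = ∑ j, A0 i j * P0 j) ∨ f = W0 * P0 j0 - 1}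
  have key : ∀ (I : Finset (Fin q)) (j0 : Fin (n + 1)) (R : Type) [CommRing R] [Algebra k R]
      (α : σ → R) (p : Fin (n + 1) → R) (w : R),
      (∀ f ∈ J I j0, aeval (Sum.elim α (Sum.elim p fun _ => w)) f = 0) ↔
      (∀ s, aeval (fun i => p (s i)) (G s) = 0) ∧ (∀ i ∈ I, ∑ j, α (i, j) * p j = 0) ∧
        w * p j0 = 1 := by
    intro I j0 R _ _ α p w
    set φ : MvPolynomial (σ ⊕ (Fin (n + 1) ⊕ Unit)) k →ₐ[k] R :=
      aeval (Sum.elim α (Sum.elim p fun _ => w)) with hφ
    have e1 : ∀ s : Fin (r + 2) → Fin (n + 1), φ (aeval (fun i => P0 (s i)) (G s)) =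
        aeval (fun i => p (s i)) (G s) := by
      intro s
      rw [← AlgHom.comp_apply, comp_aeval]
      congr 2
      funext i
      simp [hφ, P0]
    have e2 : ∀ i, φ (∑ j, A0 i j * P0 j) = ∑ j, α (i, j) * p j := by
      intro i
      rw [map_sum]
      refine Finset.sum_congr rfl fun j _ => ?_
      rw [map_mul]
      simp [hφ, A0, P0]
    have e3 : φ (W0 * P0 j0 - 1) = w * p j0 - 1 := by
      rw [map_sub, map_mul, map_one]
      simp [hφ, W0, P0]
    constructor
    · intro h
      refine ⟨fun s => ?_, fun i hi => ?_, ?_⟩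
      · rw [← e1 s]
        exact h _ (Or.inl ⟨s, rfl⟩)
      · rw [← e2 i]
        exact h _ (Or.inr (Or.inl ⟨i, hi, rfl⟩))
      · have := h _ (Or.inr (Or.inr rfl))
        rw [e3] at this
        exact sub_eq_zero.1 this
    · rintro ⟨h1, h2, h3⟩ f (⟨s, rfl⟩ | ⟨i, hi, rfl⟩ | rfl)
      · rw [e1]
        exact h1 s
      · rw [e2]
        exact h2 i hi
      · rw [e3, h3, sub_self]
  have main : ∀ (I : Finset (Fin q)) (j0 : Fin (n + 1)), ∃ Φ : MvPolynomial σ k, Φ ≠ 0 ∧
      (I.card = r + 1 → ∀ (α : σ → k) (p : Fin (n + 1) → k) (w : k),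
        (∀ s, eval (fun i => p (s i)) (G s) = 0) → (∀ i ∈ I, ∑ j, α (i, j) * p j = 0) →
        w * p j0 = 1 → eval α Φ = 0) := by
    intro I j0
    by_cases hI : I.card = r + 1
    swap
    · exact ⟨1, one_ne_zero, fun h => absurd h hI⟩
    rcases hELI k σ (Fin (n + 1) ⊕ Unit) (J I j0) with ⟨Φ, hΦ0, hΦ⟩ | ⟨Ω, _, _, x, y, hx, h⟩
    · refine ⟨Φ, hΦ0, fun _ α p w h1 h2 h3 => ?_⟩
      have h4 := (key I j0 k α p w).2 ⟨fun s => by
        rw [aeval_eq_eval]
        exact h1 s, h2, h3⟩
      have h5 : Ideal.span (J I j0) ≤ RingHom.ker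
          (aeval (Sum.elim α (Sum.elim p fun _ => w)) :
            MvPolynomial (σ ⊕ (Fin (n + 1) ⊕ Unit)) k →ₐ[k] k) := by
        rw [Ideal.span_le]
        intro f hf
        exact h4 f hf
      have h6 := h5 hΦ
      rw [RingHom.mem_ker] at h6
      rw [aeval_rename] at h6
      have h7 : (Sum.elim α (Sum.elim p fun _ : Unit => w)) ∘ Sum.inl = α := by
        funext i
        rfl
      rw [h7, aeval_eq_eval] at h6
      exact h6
    · exfalso
      obtain ⟨p, w, rfl⟩ : ∃ (p : Fin (n + 1) → Ω) (w : Ω), y = Sum.elim p fun _ => w :=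
        ⟨fun j => y (Sum.inl j), y (Sum.inr ()), by
          funext v
          rcases v with v | v
          · rfl
          · rfl⟩
      obtain ⟨h1, h2, h3⟩ := (key I j0 Ω x p w).1 h
      refine rank_contra k Ω n r q j0 (fun j => w * p j) h3 ?_ x hx I hI ?_
      · intro s hs
        have h4 := h1 (Fin.cons j0 s)
        have h5 : aeval (Fin.cons (1 : Ω) (fun i => w * p (s i)) : Fin (r + 2) → Ω)
            (G (Fin.cons j0 s)) = 0 := by
          have h6 := aeval_hom (G (Fin.cons j0 s)) _ (hGh (Fin.cons j0 s)) w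
            (fun i => p ((Fin.cons j0 s : Fin (r + 2) → Fin (n + 1)) i))
          rw [h4, mul_zero] at h6
          rw [← h6]
          congr 2
          funext i
          refine Fin.cases ?_ (fun j => ?_) i
          · exact h3.symm
          · rfl
        apply hG0 (Fin.cons j0 s)
        refine dehom _ (hGh _) ?_
        apply (injective_iff_map_eq_zero (aeval fun i => w * p (s i) :
          MvPolynomial (Fin (r + 1)) k →ₐ[k] Ω)).1 hs
        rw [← AlgHom.comp_apply, comp_aeval, ← h5]
        congr 2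
        funext i
        refine Fin.cases ?_ (fun j => ?_) i
        · simp
        · simp
      · intro i hi
        have h4 := h2 i hi
        have h5 : ∑ j, x (i, j) * (w * p j) = w * ∑ j, x (i, j) * p j := by
          rw [Finset.mul_sum]
          exact Finset.sum_congr rfl fun j _ => by ring
        rw [h5, h4, mul_zero]
  choose Φ hΦ0 hΦ using main
  refine ⟨∏ I : Finset (Fin q), ∏ j0 : Fin (n + 1), Φ I j0, ?_, ?_⟩
  · exact Finset.prod_ne_zero_iff.2 fun I _ => Finset.prod_ne_zero_iff.2 fun j0 _ => hΦ0 I j0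
  intro a ha p hp hG I hI
  by_contra hcon
  push Not at hcon
  obtain ⟨I0, hI0, hc⟩ := Finset.exists_subset_card_eq (Nat.succ_le_of_lt hcon)
  obtain ⟨j0, hj0⟩ := Function.ne_iff.1 hp
  apply ha
  rw [map_prod]
  refine Finset.prod_eq_zero (Finset.mem_univ I0) ?_
  rw [map_prod]
  refine Finset.prod_eq_zero (Finset.mem_univ j0) ?_
  exact hΦ I0 j0 hc (fun x => a x.1 x.2) p (p j0)⁻¹ hG (fun i hi => hI i (hI0 hi))
    (inv_mul_cancel₀ hj0)

end Pool.Agent.H6.AV
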